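import Pool.Agent.H14R2.LL.Defs
import Pool.Agent.H14R2.LL.S.RTEH

/-! TREH: trace bound for the powers of `S = F(T) T_b F(T)` -/

namespace LL14
open RC14 RC852 TE852 Finset Equiv

namespace TREHx

/-- the coercion `Alt n → Perm (Fin n)` commutes with `bwd` -/
theorem coe_bwd {n a q m J : ℕ} (x : Fin a → Alt n) (b : Fin q → Alt n)
    (w : Fin J → (Fin (2 * m) → Fin a × Bool) × (Fin q × Bool)) :
    ((bwd (wrd x) b w : Alt n) : Equiv.Perm (Fin n)) = bwd (gx x m) (cb b) w := by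
  have h1 : ((bwd (wrd x) b w : Alt n) : Equiv.Perm (Fin n)) =
      (alternatingGroup (Fin n)).subtype (bwd (wrd x) b w) := rfl
  rw [h1]
  unfold bwd
  rw [map_list_prod, List.map_ofFn]
  congr 1
  congr 1
  funext t
  simp only [Function.comp, blk, sl, gx, cb, Subgroup.subtype_apply]
  split_ifs <;> simp

/-- the inequality of the constants -/
theorem consts : ∃ G1 : ℕ, ∀ G : ℕ, G1 ≤ G → 1 ≤ G ∧
    (8 / 7 : ℝ) ^ 128 * (G : ℝ) ^ (1 / 4 : ℝ) * (2 * (1 / (G : ℝ))) ≤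
      (G : ℝ) ^ (-(1 / 2) : ℝ) := by
  have h1 : Filter.Tendsto (fun n : ℕ => (n : ℝ) ^ (1 / 4 : ℝ)) Filter.atTop Filter.atTop :=
    (tendsto_rpow_atTop (by norm_num)).comp tendsto_natCast_atTop_atTop
  have h2 := (Filter.eventually_ge_atTop (1 : ℕ)).and
    (h1.eventually_ge_atTop ((8 / 7 : ℝ) ^ 128 * 2))
  obtain ⟨G1, hG1⟩ := Filter.eventually_atTop.1 h2
  refine ⟨G1, fun G hG => ?_⟩
  obtain ⟨hn, h⟩ := hG1 G hG
  refine ⟨hn, ?_⟩
  have hn0 : (0 : ℝ) < G := by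
    have : 0 < G := by omega
    exact_mod_cast this
  calc (8 / 7 : ℝ) ^ 128 * (G : ℝ) ^ (1 / 4 : ℝ) * (2 * (1 / (G : ℝ)))
      = ((8 / 7 : ℝ) ^ 128 * 2) * ((G : ℝ) ^ (1 / 4 : ℝ) * (G : ℝ) ^ (-1 : ℝ)) := by
        rw [Real.rpow_neg_one]
        ring
    _ ≤ (G : ℝ) ^ (1 / 4 : ℝ) * ((G : ℝ) ^ (1 / 4 : ℝ) * (G : ℝ) ^ (-1 : ℝ)) :=
        mul_le_mul_of_nonneg_right h (by positivity)
    _ = (G : ℝ) ^ (1 / 4 + (1 / 4 + -1) : ℝ) := by
        rw [Real.rpow_add hn0, Real.rpow_add hn0]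
    _ = (G : ℝ) ^ (-(1 / 2) : ℝ) := by norm_num

end TREHx

/-- trace bound for the powers of `S = F(T) T_b F(T)` -/
theorem TREH : ∃ G0 : ℕ, ∀ G : ℕ, G0 ≤ G → ∀ n r : ℕ, 1000 ≤ r → r * G ^ 256 ≤ n →
    ∀ (a M d : ℕ) (x : Fin a → Alt n) (b : Fin 1 → Alt n), 1 ≤ a → d ≤ M →
    NF M d ≤ (G : ℝ) ^ ((1 / 1024 : ℝ) * r) → GoodH G r (gx (lz x) M) (cb b) →
    ∀ j, r ≤ j → j ≤ r * G ^ 8 →
    ∀ (W : Submodule ℂ (V j n)) (hW : Irr (repA j n) W), W ≤ Lvl j n →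
      (8 / 7 : ℝ) ^ (2 * LL r j) *
          rtr (SF (V := W) (res (repA j n) W hW.2.1) x b M d ^ (2 * LL r j)) ≤
        Real.exp (-(j * Real.log G / 2)) * Module.finrank ℂ W := by
  obtain ⟨G0, hRT⟩ := RTEH
  obtain ⟨G1, hC⟩ := TREHx.consts
  refine ⟨max G0 G1, fun G hG n r hr hn a M d x b ha hdM hNF hGood j hj1 hj2 W hW hWL => ?_⟩
  obtain ⟨hG1, hc⟩ := hC G (le_trans (le_max_right _ _) hG)
  have hG0r : (0 : ℝ) < G := by
    have : 0 < G := by omega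
    exact_mod_cast this
  have hG1r : (1 : ℝ) ≤ G := by exact_mod_cast hG1
  have hr1 : 1 ≤ r := by omega
  have hj0 : 1 ≤ j := hr1.trans hj1
  have hjn : j * G ^ 248 ≤ n := by
    calc j * G ^ 248 ≤ (r * G ^ 8) * G ^ 248 := Nat.mul_le_mul_right _ hj2
      _ = r * G ^ 256 := by ring
      _ ≤ n := hn
  have hchar := hRT G (le_trans (le_max_left _ _) hG) n j hj0 hjn W hW.2.1 hWL
  obtain ⟨β, hβ⟩ : ∃ β, β = (1 / (G : ℝ)) ^ j := ⟨_, rfl⟩
  have hβ0 : 0 ≤ β := by rw [hβ]; positivity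
  have key := SFTR ha le_rfl (res (repA j n) W hW.2.1) x b M d (2 * LL r j) hdM
    (fun h : Alt n => 2 * FH G n ≤ nfix (h : Equiv.Perm (Fin n))) β hβ0 (by
      intro h hh
      rw [hβ]
      exact hchar h (not_le.1 hh).le)
  have hbad : (Nat.card {w : Fin (2 * LL r j) →
        (Fin (2 * M) → Fin (a + a) × Bool) × (Fin 1 × Bool) //
      2 * FH G n ≤ nfix ((bwd (wrd (lz x)) b w : Alt n) : Equiv.Perm (Fin n))} : ℝ) /
        (Fintype.card ((Fin (2 * M) → Fin (a + a) × Bool) × (Fin 1 × Bool)) : ℝ) ^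
          (2 * LL r j) ≤ (1 / (G : ℝ)) ^ (2 * j) := by
    have h2 := hGood j hj1 hj2
    simp only [TREHx.coe_bwd]
    have hpos : (0 : ℝ) <
        (Fintype.card ((Fin (2 * M) → Fin (a + a) × Bool) × (Fin 1 × Bool)) : ℝ) := by
      have : Nonempty (Fin (a + a)) := ⟨⟨0, by omega⟩⟩
      exact_mod_cast Fintype.card_pos
    rw [div_le_iff₀ (by positivity)]
    exact h2
  -- the number of blocks
  obtain ⟨J, hJ⟩ : ∃ J, J = 2 * LL r j := ⟨_, rfl⟩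
  rw [← hJ] at key hbad ⊢
  have hJr : J * r ≤ 128 * j := by
    rw [hJ]
    unfold LL
    have h3 : j / r * r ≤ j := Nat.div_mul_le_self j r
    nlinarith
  have hJj : J ≤ 128 * j := le_trans (Nat.le_mul_of_pos_right J hr1) hJr
  have h87 : (8 / 7 : ℝ) ^ J ≤ ((8 / 7 : ℝ) ^ 128) ^ j := by
    rw [← pow_mul]
    exact pow_le_pow_right₀ (by norm_num) hJj
  have hNF0 : 0 ≤ NF M d := by unfold NF; positivity
  have hNF2 : NF M d ^ (2 * J) ≤ ((G : ℝ) ^ (1 / 4 : ℝ)) ^ j := by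
    calc NF M d ^ (2 * J) ≤ ((G : ℝ) ^ ((1 / 1024 : ℝ) * r)) ^ (2 * J) :=
          pow_le_pow_left₀ hNF0 hNF _
      _ = (G : ℝ) ^ ((1 / 1024 : ℝ) * r * ((2 * J : ℕ) : ℝ)) := by
          rw [← Real.rpow_natCast, ← Real.rpow_mul hG0r.le]
      _ ≤ (G : ℝ) ^ ((1 / 4 : ℝ) * (j : ℝ)) := by
          refine Real.rpow_le_rpow_of_exponent_le hG1r ?_
          have h4 : (J : ℝ) * r ≤ 128 * j := by exact_mod_cast hJr
          push_cast
          nlinarith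
      _ = ((G : ℝ) ^ (1 / 4 : ℝ)) ^ j := by
          rw [← Real.rpow_natCast, ← Real.rpow_mul hG0r.le]
  have hsum : β + (1 / (G : ℝ)) ^ (2 * j) ≤ (2 * (1 / (G : ℝ))) ^ j := by
    have h0 : 0 ≤ 1 / (G : ℝ) := by positivity
    have h1 : 1 / (G : ℝ) ≤ 1 := by
      rw [div_le_one hG0r]
      exact hG1r
    have h5 : (1 / (G : ℝ)) ^ (2 * j) ≤ (1 / (G : ℝ)) ^ j :=
      pow_le_pow_of_le_one h0 h1 (by omega)
    rw [hβ, mul_pow]
    have h6 : (2 : ℝ) ≤ 2 ^ j := by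
      calc (2 : ℝ) = 2 ^ 1 := by norm_num
        _ ≤ 2 ^ j := pow_le_pow_right₀ (by norm_num) hj0
    have h7 : 0 ≤ (1 / (G : ℝ)) ^ j := by positivity
    nlinarith
  have hfr : (0 : ℝ) ≤ Module.finrank ℂ W := by positivity
  have hexp : ((G : ℝ) ^ (-(1 / 2) : ℝ)) ^ j = Real.exp (-(j * Real.log G / 2)) := by
    rw [Real.rpow_def_of_pos hG0r, ← Real.exp_nat_mul]
    congr 1
    ring
  rw [← hexp]
  calc (8 / 7 : ℝ) ^ J * rtr (SF (V := W) (res (repA j n) W hW.2.1) x b M d ^ J)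
      ≤ (8 / 7 : ℝ) ^ J * (NF M d ^ (2 * J) * (β + (1 / (G : ℝ)) ^ (2 * j)) *
          Module.finrank ℂ W) := by
        refine mul_le_mul_of_nonneg_left (key.trans ?_) (by positivity)
        refine mul_le_mul_of_nonneg_right ?_ hfr
        exact mul_le_mul_of_nonneg_left (add_le_add le_rfl hbad) (by positivity)
    _ ≤ ((8 / 7 : ℝ) ^ 128) ^ j * (((G : ℝ) ^ (1 / 4 : ℝ)) ^ j *
          (2 * (1 / (G : ℝ))) ^ j * Module.finrank ℂ W) := by
        refine mul_le_mul h87 ?_ (by positivity) (by positivity)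
        refine mul_le_mul_of_nonneg_right ?_ hfr
        exact mul_le_mul hNF2 hsum (by positivity) (by positivity)
    _ = ((8 / 7 : ℝ) ^ 128 * (G : ℝ) ^ (1 / 4 : ℝ) * (2 * (1 / (G : ℝ)))) ^ j *
          Module.finrank ℂ W := by
        rw [mul_pow, mul_pow]
        ring
    _ ≤ ((G : ℝ) ^ (-(1 / 2) : ℝ)) ^ j * Module.finrank ℂ W :=
        mul_le_mul_of_nonneg_right (pow_le_pow_left₀ (by positivity) hc j) hfr

end LL14
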